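import Pool.Agent.H894grid.Cover
import Pool.Agent.H894grid.Count

/-!
# Star discrepancy of point sets covered by few Cartesian products

`optGrid q k m d` is the optimal `L_q` star discrepancy of the finite point sets in `[0,1]^d`, with
arbitrary weights, which are contained in a union of `k` Cartesian products `A_1 × ... × A_d` of at
most `m` points each.  For `k = 1` its order is `m^(-1/d)`.  In dimension 2 the order is
`m^(-k/(k+1))`, for every fixed `k` and all `1 ≤ q ≤ ∞`.  In every dimension the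
exponent is `-V(k, d)`, where `V(k, d)` is the largest `v` such that the simplex `b ≥ 0`,
`b_1 + ... + b_d < v` is covered by `k` boxes `∏ [0, a_j)` with `a_1 + ... + a_d ≤ 1`; in dimension
`d + 1` the number `1 - V` is of the exact order `k^(-1/d)`.  Hence a point set with the discrepancy
`(ln m)^a / m` (in particular every `m`-point set whose discrepancy has the optimal order) is not
covered by fewer than `c (ln m / ln ln m)^d` products of at most `m` points each, whereas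
`C (ln m)^d` products suffice.

Proof of the lower bound.  Let `b` run over the vectors in `ℕ^(d+1)` with sum `n`, and say that the
product `A_1 × ... × A_(d+1)` kills `b` if `|A_j| > m^(b_j/(n+1))` for all `j`.  A product with at
most `m` points kills at most one `b`, so some `b` is not killed by any of the products.  Hence to
every product there is a direction `j` in which it has at most `m^(b_j/(n+1))` coordinates; in every
direction half of the slabs of width `c m^(-b_j/(n+1)) / k` contain no coordinate of the products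
which are assigned to this direction, and the products of these slabs are empty boxes.
Upper bound: Smolyak's construction with `n` levels.
-/

set_option autoImplicit false

namespace Pool.Agent.Results.MP_173de9_an.FewCartesianProducts

open MeasureTheory

/-- The local discrepancy `∏ x_j - Σ_μ λ_μ χ_{[0,x]}(ξ^μ)` of the points `ξ` with the weights `λ`. -/
noncomputable def localDisc {N d : ℕ} (lam : Fin N → ℝ) (ξ : Fin N → Fin d → ℝ) (x : Fin d → ℝ) : ℝ :=
  ∏ j, x j - ∑ μ : Fin N, lam μ * (Set.Icc (0 : Fin d → ℝ) x).indicator (fun _ => (1:ℝ)) (ξ μ)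

/-- The `L_q` norm of the weighted local discrepancy over `[0,1]^d`. -/
noncomputable def starDisc (q : ENNReal) {N d : ℕ} (lam : Fin N → ℝ) (ξ : Fin N → Fin d → ℝ) :
    ENNReal :=
  eLpNorm (localDisc lam ξ) q (volume.restrict (Set.Icc (0 : Fin d → ℝ) 1))

/-- The optimal `L_q` star discrepancy of the finite point sets in `[0,1]^d`, with arbitrary weights,
which are contained in the union of `k` Cartesian products `A i 1 × ... × A i d` of at most `m`
points each. -/
noncomputable def optGrid (q : ENNReal) (k m d : ℕ) : ENNReal :=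
  ⨅ (A : Fin k → Fin d → Finset ℝ) (_ : ∀ i, ∏ j, (A i j).card ≤ m) (N : ℕ) (lam : Fin N → ℝ)
    (ξ : Fin N → Fin d → ℝ)
    (_ : ∀ μ, ξ μ ∈ Set.Icc (0 : Fin d → ℝ) 1 ∧ ∃ i, ∀ j, ξ μ j ∈ A i j), starDisc q lam ξ

/-- The simplex `{β ≥ 0, ∑_j β_j < v}` in `ℝ^d` is covered by `k` boxes `∏_j [0, α_ij)` with
`∑_j α_ij ≤ 1`. -/
def Covers (k d : ℕ) (v : ℝ) : Prop :=
  ∃ α : Fin k → Fin d → ℝ, (∀ i j, 0 ≤ α i j) ∧ (∀ i, ∑ j, α i j ≤ 1) ∧
    ∀ β : Fin d → ℝ, (∀ j, 0 ≤ β j) → ∑ j, β j < v → ∃ i, ∀ j, β j < α i j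

/-- The exponent: the supremum of the sizes `v ≥ 0` of the simplices which can be covered by `k`
boxes of this kind. -/
noncomputable def expo (k d : ℕ) : ℝ := sSup {v : ℝ | 0 ≤ v ∧ Covers k d v}

theorem localDisc_eq {N d : ℕ} (lam : Fin N → ℝ) (ξ : Fin N → Fin d → ℝ) :
    localDisc lam ξ = H894alg.ld lam ξ := rfl

instance prob (d : ℕ) : IsProbabilityMeasure (volume.restrict (Set.Icc (0 : Fin d → ℝ) 1)) := by
  constructor
  rw [Measure.restrict_apply MeasurableSet.univ, Set.univ_inter, Real.volume_Icc_pi]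
  simp

theorem meas {N d : ℕ} (lam : Fin N → ℝ) (ξ : Fin N → Fin d → ℝ)
    (hξ : ∀ μ, ξ μ ∈ Set.Icc (0 : Fin d → ℝ) 1) : Measurable (localDisc lam ξ) := by
  rw [localDisc_eq]
  exact H894alg.measurable_ld lam ξ (fun μ i => (hξ μ).1 i)

/-- from measure to norm -/
theorem norm_lower {N d : ℕ} (lam : Fin N → ℝ) (ξ : Fin N → Fin d → ℝ)
    (hξ : ∀ μ, ξ μ ∈ Set.Icc (0 : Fin d → ℝ) 1) {a t : ℝ} (ht : 0 ≤ t)
    (h : ENNReal.ofReal a ≤ volume {x : Fin d → ℝ | x ∈ Set.Icc (0 : Fin d → ℝ) 1 ∧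
      t ≤ |localDisc lam ξ x|}) {q : ENNReal} (hq : 1 ≤ q) :
    ENNReal.ofReal (t * a) ≤ starDisc q lam ξ := by
  have hm := meas lam ξ hξ
  calc ENNReal.ofReal (t * a) = ENNReal.ofReal t * ENNReal.ofReal a := ENNReal.ofReal_mul ht
    _ ≤ ENNReal.ofReal t * (volume.restrict (Set.Icc (0 : Fin d → ℝ) 1))
        {x | ENNReal.ofReal t ≤ ‖localDisc lam ξ x‖ₑ} := by
        gcongr
        refine h.trans ?_
        rw [Measure.restrict_apply (measurableSet_le measurable_const hm.enorm)]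
        apply measure_mono
        rintro x ⟨hx1, hx2⟩
        refine ⟨?_, hx1⟩
        show ENNReal.ofReal t ≤ ‖localDisc lam ξ x‖ₑ
        rw [← ofReal_norm, Real.norm_eq_abs]
        exact ENNReal.ofReal_le_ofReal hx2
    _ ≤ ∫⁻ x in Set.Icc (0 : Fin d → ℝ) 1, ‖localDisc lam ξ x‖ₑ :=
        mul_meas_ge_le_lintegral hm.enorm _
    _ = eLpNorm (localDisc lam ξ) 1 (volume.restrict (Set.Icc (0 : Fin d → ℝ) 1)) := by
        rw [eLpNorm_one_eq_lintegral_enorm]
    _ ≤ starDisc q lam ξ :=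
        eLpNorm_le_eLpNorm_of_exponent_le hq hm.aestronglyMeasurable

theorem norm_upper {N d : ℕ} (lam : Fin N → ℝ) (ξ : Fin N → Fin d → ℝ)
    (hξ : ∀ μ, ξ μ ∈ Set.Icc (0 : Fin d → ℝ) 1) {t : ℝ}
    (h : ∀ x ∈ Set.Icc (0 : Fin d → ℝ) 1, |localDisc lam ξ x| ≤ t) (q : ENNReal) :
    starDisc q lam ξ ≤ ENNReal.ofReal t := by
  have hm := meas lam ξ hξ
  calc starDisc q lam ξ ≤ starDisc ⊤ lam ξ :=
        eLpNorm_le_eLpNorm_of_exponent_le le_top hm.aestronglyMeasurable
    _ ≤ ENNReal.ofReal t := by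
        unfold starDisc
        rw [eLpNorm_exponent_top]
        apply eLpNormEssSup_le_of_ae_bound
        rw [ae_restrict_iff' measurableSet_Icc]
        filter_upwards with x hx
        rw [Real.norm_eq_abs]
        exact h x hx

theorem lower {d n k m : ℕ} {q : ENNReal} (hq : 1 ≤ q) (hm : 1 ≤ m) (hk1 : 1 ≤ k)
    (hk : k < (n + d).choose n) :
    ENNReal.ofReal ((1 / (96 * (k : ℝ))) ^ (d + 1) * (m : ℝ) ^ (-((n : ℝ) / (n + 1)))) ≤
      optGrid q k m (d + 1) := by
  unfold optGrid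
  refine le_iInf fun A => le_iInf fun hA => le_iInf fun N => le_iInf fun lam => le_iInf fun ξ =>
    le_iInf fun hξ => ?_
  have h1 := H894grid.lower_grid hm hk1 hk A hA lam ξ (fun μ i => (hξ μ).1.1 i)
    (fun μ => (hξ μ).2)
  have h2 := norm_lower lam ξ (fun μ => (hξ μ).1) (by positivity) h1 hq
  refine le_trans (ENNReal.ofReal_le_ofReal (le_of_eq ?_)) h2
  have hk0 : (k : ℝ) ≠ 0 := by
    have : (1 : ℝ) ≤ k := by exact_mod_cast hk1
    linarith
  have h3 : (1 / (96 * (k : ℝ))) = (1 / (12 * (k : ℝ))) * (1 / 8) := by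
    field_simp
    norm_num
  rw [h3, mul_pow]
  ring

theorem upper {d k m : ℕ} {t : ℝ}
    (h : ∃ (A : Fin k → Fin (d + 1) → Finset ℝ) (N : ℕ) (lam : Fin N → ℝ)
      (ξ : Fin N → Fin (d + 1) → ℝ),
      (∀ i, ∏ j, (A i j).card ≤ m) ∧
      (∀ μ, ξ μ ∈ Set.Icc (0 : Fin (d + 1) → ℝ) 1 ∧ ∃ i, ∀ j, ξ μ j ∈ A i j) ∧
      ∀ x ∈ Set.Icc (0 : Fin (d + 1) → ℝ) 1, |H894alg.ld lam ξ x| ≤ t) (q : ENNReal) :
    optGrid q k m (d + 1) ≤ ENNReal.ofReal t := by
  obtain ⟨A, N, lam, ξ, h1, h2, h3⟩ := h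
  unfold optGrid
  refine (iInf_le _ A).trans ((iInf_le _ h1).trans ((iInf_le _ N).trans ((iInf_le _ lam).trans
    ((iInf_le _ ξ).trans ((iInf_le _ h2).trans ?_)))))
  exact norm_upper lam ξ (fun μ => (h2 μ).1) h3 q

theorem covers_zero (k d : ℕ) : Covers k d 0 := by
  refine ⟨fun _ _ => 0, fun _ _ => le_rfl, fun i => by simp, fun β hβ h => ?_⟩
  exact absurd h (not_lt.2 (Finset.sum_nonneg fun j _ => hβ j))

theorem covers_mono {k d : ℕ} {v w : ℝ} (hvw : v ≤ w) (h : Covers k d w) : Covers k d v := by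
  obtain ⟨α, h1, h2, h3⟩ := h
  exact ⟨α, h1, h2, fun β hβ hs => h3 β hβ (lt_of_lt_of_le hs hvw)⟩

theorem covers_le {k d : ℕ} {v : ℝ} (h : Covers k (d + 1) v) : v ≤ 1 := by
  obtain ⟨α, hα0, hα1, hcov⟩ := h
  by_contra hcon
  push Not at hcon
  obtain ⟨i, hi⟩ := hcov (fun j => if j = 0 then 1 else 0)
    (fun j => by split_ifs <;> norm_num) (by simpa using hcon)
  have h1 := hi 0
  simp only [if_true] at h1
  have h2 := (Finset.single_le_sum (f := α i) (fun j' _ => hα0 i j') (Finset.mem_univ 0)).trans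
    (hα1 i)
  linarith

theorem bdd (k d : ℕ) : BddAbove {v : ℝ | 0 ≤ v ∧ Covers k (d + 1) v} :=
  ⟨1, fun _ hv => covers_le hv.2⟩

theorem expo_nonneg (k d : ℕ) : 0 ≤ expo k (d + 1) :=
  le_csSup (bdd k d) ⟨le_rfl, covers_zero k (d + 1)⟩

theorem not_covers {k d : ℕ} {v : ℝ} (h : expo k (d + 1) < v) : ¬ Covers k (d + 1) v := by
  intro hv
  exact absurd (le_csSup (bdd k d) ⟨(expo_nonneg k d).trans h.le, hv⟩) (not_le.2 h)

theorem covers_of_lt {k d : ℕ} {v : ℝ} (h : v < expo k (d + 1)) : Covers k (d + 1) v := by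
  have hne : {v : ℝ | 0 ≤ v ∧ Covers k (d + 1) v}.Nonempty := ⟨0, le_rfl, covers_zero k (d + 1)⟩
  unfold expo at h
  obtain ⟨w, hw, hvw⟩ := exists_lt_of_lt_csSup hne h
  exact covers_mono hvw.le hw.2

open Filter Topology in
theorem lower_expo {d k m : ℕ} {q : ENNReal} (hq : 1 ≤ q) (hm : 2 ≤ m) (hk1 : 1 ≤ k) :
    ENNReal.ofReal ((1 / (96 * (k : ℝ))) ^ (d + 1) * (m : ℝ) ^ (-(expo k (d + 1)))) ≤
      optGrid q k m (d + 1) := by
  have hm0 : (m : ℝ) ≠ 0 := by
    have : (2 : ℝ) ≤ m := by exact_mod_cast hm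
    linarith
  have hcont : Continuous (fun t : ℝ => ENNReal.ofReal ((1 / (96 * (k : ℝ))) ^ (d + 1) *
      (m : ℝ) ^ (-(expo k (d + 1) + t)))) := by
    apply ENNReal.continuous_ofReal.comp
    apply Continuous.mul continuous_const
    exact (Real.continuous_const_rpow hm0).comp (by fun_prop)
  have hlim := (hcont.tendsto 0).comp (tendsto_one_div_add_atTop_nhds_zero_nat (𝕜 := ℝ))
  rw [add_zero] at hlim
  refine le_of_tendsto' hlim (fun n => ?_)
  have hn : (0 : ℝ) < 1 / ((n : ℝ) + 1) := by positivity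
  have hnot : ¬ H894grid.Cov k (d + 1) (expo k (d + 1) + 1 / ((n : ℝ) + 1)) :=
    not_covers (by linarith)
  show ENNReal.ofReal _ ≤ _
  unfold optGrid
  refine le_iInf fun A => le_iInf fun hA => le_iInf fun N => le_iInf fun lam => le_iInf fun ξ =>
    le_iInf fun hξ => ?_
  have h1 := H894grid.lower_cov hm hk1 hnot A hA lam ξ (fun μ i => (hξ μ).1.1 i)
    (fun μ => (hξ μ).2)
  have h2 := norm_lower lam ξ (fun μ => (hξ μ).1) (by positivity) h1 hq
  refine le_trans (ENNReal.ofReal_le_ofReal (le_of_eq ?_)) h2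
  have hk0 : (k : ℝ) ≠ 0 := by
    have : (1 : ℝ) ≤ k := by exact_mod_cast hk1
    linarith
  have h3 : (1 / (96 * (k : ℝ))) = (1 / (12 * (k : ℝ))) * (1 / 8) := by
    field_simp
    norm_num
  rw [h3, mul_pow]
  ring

open Filter Topology in
theorem upper_expo {d k m : ℕ} (hm : 2 ≤ m) (q : ENNReal) :
    optGrid q k m (d + 1) ≤ ENNReal.ofReal ((2 * ((d : ℝ) + 1) + 2 ^ (d + 2)) *
      (2 * Real.log m) ^ (d + 1) * (m : ℝ) ^ (-(expo k (d + 1)))) := by
  have hm0 : (m : ℝ) ≠ 0 := by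
    have : (2 : ℝ) ≤ m := by exact_mod_cast hm
    linarith
  have hcont : Continuous (fun t : ℝ => ENNReal.ofReal ((2 * ((d : ℝ) + 1) + 2 ^ (d + 2)) *
      (2 * Real.log m) ^ (d + 1) * (m : ℝ) ^ (-(max 0 (expo k (d + 1) - t))))) := by
    apply ENNReal.continuous_ofReal.comp
    apply Continuous.mul continuous_const
    exact (Real.continuous_const_rpow hm0).comp (by fun_prop)
  have hlim := (hcont.tendsto 0).comp (tendsto_one_div_add_atTop_nhds_zero_nat (𝕜 := ℝ))
  rw [sub_zero, max_eq_right (expo_nonneg k d)] at hlim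
  refine ge_of_tendsto' hlim (fun n => ?_)
  have hn : (0 : ℝ) < 1 / ((n : ℝ) + 1) := by positivity
  have hcov : H894grid.Cov k (d + 1) (max 0 (expo k (d + 1) - 1 / ((n : ℝ) + 1))) := by
    rcases le_total 0 (expo k (d + 1) - 1 / ((n : ℝ) + 1)) with h | h
    · rw [max_eq_right h]
      exact covers_of_lt (by linarith)
    · rw [max_eq_left h]
      exact covers_zero k (d + 1)
  have h1 := upper (H894grid.upper_cov (by omega) hm (le_max_left _ _) hcov) q
  refine h1.trans (le_of_eq ?_)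
  show _ = ENNReal.ofReal _
  push_cast
  rfl

/-- **Star discrepancy of point sets covered by `k` Cartesian products of at most `m` points.** -/
theorem result (d : ℕ) :
    -- (1) lower bound in dimension `d + 1`
    (∀ q : ENNReal, 1 ≤ q → ∀ k m n : ℕ, 1 ≤ k → 1 ≤ m → k < (n + d).choose n →
      ENNReal.ofReal ((1 / (96 * (k : ℝ))) ^ (d + 1) * (m : ℝ) ^ (-((n : ℝ) / (n + 1)))) ≤
        optGrid q k m (d + 1)) ∧
    -- (2) upper bound in dimension `d + 1`, with `n = p + 1`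
    (∀ (q : ENNReal) (k m p : ℕ), 1 ≤ m → (p + d).choose p ≤ k →
      optGrid q k m (d + 1) ≤
        ENNReal.ofReal (((d : ℝ) + 1 + ((p : ℝ) + 1) ^ (d + 1)) * 2 ^ (p + 1) *
          (m : ℝ) ^ (-(((p : ℝ) + 1) / ((p : ℝ) + 1 + d))))) ∧
    -- (3) a discrepancy of at most `(ln m)^a / m` needs many products
    (∀ a : ℝ, 0 ≤ a → ∃ c : ℝ, 0 < c ∧ ∀ q : ENNReal, 1 ≤ q → ∀ m : ℕ, 16 ≤ m →
      ∀ k : ℕ, 1 ≤ k → optGrid q k m (d + 1) ≤ ENNReal.ofReal (Real.log m ^ a / m) →
        c * (Real.log m / Real.log (Real.log m)) ^ d ≤ k) ∧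
    -- (4) not much more products suffice
    (∃ C : ℝ, 0 < C ∧ ∀ m : ℕ, 2 ^ (d + 2) ≤ m → ∃ k : ℕ, 1 ≤ k ∧
      (k : ℝ) ≤ (2 * Real.log m) ^ d ∧ ∀ q : ENNReal,
        optGrid q k m (d + 1) ≤ ENNReal.ofReal (C * Real.log m ^ (d + 1) / m)) ∧
    -- (5) the exponent for all `k`
    (∀ q : ENNReal, 1 ≤ q → ∀ k m : ℕ, 1 ≤ k → 2 ≤ m →
      ENNReal.ofReal ((1 / (96 * (k : ℝ))) ^ (d + 1) * (m : ℝ) ^ (-(expo k (d + 1)))) ≤
        optGrid q k m (d + 1) ∧
      optGrid q k m (d + 1) ≤ ENNReal.ofReal ((2 * ((d : ℝ) + 1) + 2 ^ (d + 2)) *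
        (2 * Real.log m) ^ (d + 1) * (m : ℝ) ^ (-(expo k (d + 1))))) := by
  refine ⟨?_, ?_, ?_, ?_, fun q hq k m hk hm => ⟨lower_expo hq hm hk, upper_expo hm q⟩⟩
  · intro q hq k m n hk1 hm hk
    exact lower hq hm hk1 hk
  · intro q k m p hm hk
    exact upper (H894grid.upper_grid hm hk) q
  · intro a ha
    obtain ⟨c, hc, hcm⟩ := H894grid.count_lower d a ha
    refine ⟨c, hc, fun q hq m hm k hk H => hcm m hm k hk (fun n hn => ?_)⟩
    have h1 := (lower hq (by omega : 1 ≤ m) hk hn).trans H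
    have hl := (H894grid.log_bounds hm).1
    exact (ENNReal.ofReal_le_ofReal_iff (by positivity)).1 h1
  · refine ⟨2 ^ (d + 1) * (d + 1 + 2 ^ (d + 1)), by positivity, fun m hm => ?_⟩
    have hm4 : 4 ≤ m := by
      have : 2 ^ 2 ≤ 2 ^ (d + 2) := Nat.pow_le_pow_right (by norm_num) (by omega)
      omega
    have hm0 : m ≠ 0 := by omega
    have hmR : (0 : ℝ) < m := by exact_mod_cast (by omega : 0 < m)
    set L : ℕ := Nat.log 2 m with hL
    have hL1 : 2 ^ L ≤ m := Nat.pow_log_le_self 2 hm0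
    have hL2 : m < 2 ^ (L + 1) := Nat.lt_pow_succ_log_self (by norm_num) m
    have hL3 : d + 2 ≤ L := by
      rw [hL]
      exact (Nat.le_log_iff_pow_le (by norm_num) hm0).2 hm
    have hlog2 := Real.log_two_gt_d9
    have hLl : (L : ℝ) ≤ 2 * Real.log m := by
      have h1 : Real.log ((2 : ℝ) ^ L) ≤ Real.log m :=
        Real.log_le_log (by positivity) (by exact_mod_cast hL1)
      rw [Real.log_pow] at h1
      have h2 : (0 : ℝ) ≤ L := Nat.cast_nonneg L
      nlinarith
    have hl1 : 1 ≤ Real.log m := by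
      have h1 : Real.log 4 ≤ Real.log m := Real.log_le_log (by norm_num) (by exact_mod_cast hm4)
      have h2 : Real.log 4 = 2 * Real.log 2 := by
        rw [show (4 : ℝ) = 2 ^ 2 by norm_num, Real.log_pow]; norm_num
      linarith
    set p : ℕ := L - d - 1 with hp
    have hpL : p + 1 + d = L := by omega
    refine ⟨(p + d).choose p, Nat.choose_pos (by omega), ?_, fun q => ?_⟩
    · rw [Nat.choose_symm_add]
      calc (((p + d).choose d : ℕ) : ℝ) ≤ ((p + d : ℕ) : ℝ) ^ d := by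
            exact_mod_cast Nat.choose_le_pow (p + d) d
        _ ≤ (2 * Real.log m) ^ d := by
            apply pow_le_pow_left₀ (by positivity)
            have : ((p + d : ℕ) : ℝ) ≤ L := by exact_mod_cast (by omega : p + d ≤ L)
            linarith
    · refine (upper (H894grid.upper_B (B := 2) (m := m) (by norm_num) (by rw [hpL]; exact hL1)
        le_rfl) q).trans (ENNReal.ofReal_le_ofReal ?_)
      have h1 : ((p : ℝ) + 1) ^ (d + 1) ≤ 2 ^ (d + 1) * Real.log m ^ (d + 1) := by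
        rw [← mul_pow]
        apply pow_le_pow_left₀ (by positivity)
        have : ((p : ℝ) + 1) ≤ L := by exact_mod_cast (by omega : p + 1 ≤ L)
        linarith
      have h2 : (1 : ℝ) ≤ Real.log m ^ (d + 1) := one_le_pow₀ hl1
      have h3 : (m : ℝ) ≤ 2 ^ (d + 1) * 2 ^ (p + 1) := by
        rw [← pow_add]
        have : m ≤ 2 ^ (d + 1 + (p + 1)) := by
          have h4 : d + 1 + (p + 1) = L + 1 := by omega
          rw [h4]
          exact hL2.le
        exact_mod_cast this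
      push_cast
      rw [div_le_div_iff₀ (by positivity) hmR]
      have h5 : (d : ℝ) + 1 + ((p : ℝ) + 1) ^ (d + 1) ≤
          (d + 1 + 2 ^ (d + 1)) * Real.log m ^ (d + 1) := by
        have : (0 : ℝ) ≤ d := Nat.cast_nonneg d
        nlinarith
      calc ((d : ℝ) + 1 + ((p : ℝ) + 1) ^ (d + 1)) * m
          ≤ ((d + 1 + 2 ^ (d + 1)) * Real.log m ^ (d + 1)) * (2 ^ (d + 1) * 2 ^ (p + 1)) :=
            mul_le_mul h5 h3 (by positivity) (by positivity)
        _ = _ := by ring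

end Pool.Agent.Results.MP_173de9_an.FewCartesianProducts
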