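import Pool.Agent.H894alg.LowZ

/-!
# Point sets with small discrepancy have a large Hilbert function

The Hilbert function of `Z ⊆ ℝ^d` at `n` is the dimension of the space of functions on `Z` given by the
polynomials of degree `< n` in each variable; it is at most `n^d`.  If it is at most `c n^d`, the local
discrepancy of every weighted point set which is contained in `Z` up to `c n^d` points is at least
`c n^(-d)` on a set of measure at least `c`.  So if the `L_q` star discrepancy is less than `c n^(-d)`,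
the Hilbert function of the point set at `n` is more than `c n^d`, that is, it is as large as possible
up to the constant, and this remains so after the removal of any `c n^d` points.
-/

set_option autoImplicit false

namespace Pool.Agent.Results.MP_173de9_an.LargeHilbertFunction

open MeasureTheory

/-- The local discrepancy `∏ x_j - Σ_μ λ_μ χ_{[0,x]}(ξ^μ)` of the points `ξ` with the weights `λ`. -/
noncomputable def localDisc {m d : ℕ} (lam : Fin m → ℝ) (ξ : Fin m → Fin d → ℝ) (x : Fin d → ℝ) : ℝ :=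
  ∏ j, x j - ∑ μ : Fin m, lam μ * (Set.Icc (0 : Fin d → ℝ) x).indicator (fun _ => (1:ℝ)) (ξ μ)

/-- The `L_q` norm of the weighted local discrepancy over `[0,1]^d`. -/
noncomputable def starDisc (q : ENNReal) {m d : ℕ} (lam : Fin m → ℝ) (ξ : Fin m → Fin d → ℝ) :
    ENNReal :=
  eLpNorm (localDisc lam ξ) q (volume.restrict (Set.Icc (0 : Fin d → ℝ) 1))

/-- The Hilbert function of `Z`: the dimension of the space of functions on `Z` which is spanned by
the monomials with all exponents `< n`. -/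
noncomputable def hilbert {d : ℕ} (Z : Set (Fin d → ℝ)) (n : ℕ) : ℕ :=
  Module.finrank ℝ (Submodule.span ℝ
    (Set.range (fun (j : Fin d → Fin n) (x : Z) => ∏ i, (x : Fin d → ℝ) i ^ (j i : ℕ))))

theorem localDisc_eq {m d : ℕ} (lam : Fin m → ℝ) (ξ : Fin m → Fin d → ℝ) :
    localDisc lam ξ = H894alg.ld lam ξ := rfl

theorem hilbert_eq {d : ℕ} (Z : Set (Fin d → ℝ)) (n : ℕ) : hilbert Z n = H894alg.hilb Z n := rfl

instance prob (d : ℕ) : IsProbabilityMeasure (volume.restrict (Set.Icc (0 : Fin d → ℝ) 1)) := by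
  constructor
  rw [Measure.restrict_apply MeasurableSet.univ, Set.univ_inter, Real.volume_Icc_pi]
  simp

theorem meas {m d : ℕ} (lam : Fin m → ℝ) (ξ : Fin m → Fin d → ℝ)
    (hξ : ∀ μ, ξ μ ∈ Set.Icc (0 : Fin d → ℝ) 1) : Measurable (localDisc lam ξ) := by
  rw [localDisc_eq]
  exact H894alg.measurable_ld lam ξ (fun μ i => (hξ μ).1 i)

/-- from measure to norm -/
theorem norm_lower {m d : ℕ} (lam : Fin m → ℝ) (ξ : Fin m → Fin d → ℝ)
    (hξ : ∀ μ, ξ μ ∈ Set.Icc (0 : Fin d → ℝ) 1) {a t : ℝ} (ht : 0 ≤ t)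
    (h : ENNReal.ofReal a ≤ volume {x : Fin d → ℝ | x ∈ Set.Icc (0 : Fin d → ℝ) 1 ∧
      t ≤ |localDisc lam ξ x|}) {q : ENNReal} (hq : 1 ≤ q) :
    ENNReal.ofReal (t * a) ≤ starDisc q lam ξ := by
  have hm := meas lam ξ hξ
  calc ENNReal.ofReal (t * a) = ENNReal.ofReal t * ENNReal.ofReal a := ENNReal.ofReal_mul ht
    _ ≤ ENNReal.ofReal t * (volume.restrict (Set.Icc (0 : Fin d → ℝ) 1))
        {x | ENNReal.ofReal t ≤ ‖localDisc lam ξ x‖ₑ} := by
        gcongr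
        refine h.trans ?_
        rw [Measure.restrict_apply (measurableSet_le measurable_const hm.enorm)]
        apply measure_mono
        rintro x ⟨hx1, hx2⟩
        refine ⟨?_, hx1⟩
        show ENNReal.ofReal t ≤ ‖localDisc lam ξ x‖ₑ
        rw [← ofReal_norm, Real.norm_eq_abs]
        exact ENNReal.ofReal_le_ofReal hx2
    _ ≤ ∫⁻ x in Set.Icc (0 : Fin d → ℝ) 1, ‖localDisc lam ξ x‖ₑ :=
        mul_meas_ge_le_lintegral hm.enorm _
    _ = eLpNorm (localDisc lam ξ) 1 (volume.restrict (Set.Icc (0 : Fin d → ℝ) 1)) := by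
        rw [eLpNorm_one_eq_lintegral_enorm]
    _ ≤ starDisc q lam ξ :=
        eLpNorm_le_eLpNorm_of_exponent_le hq hm.aestronglyMeasurable

/-- the constant -/
noncomputable def c₁ (d : ℕ) : ℝ := 1 / 2 * (1 / (192 * d * 4 ^ d)) ^ d

theorem c₁_pos {d : ℕ} (hd : 1 ≤ d) : 0 < c₁ d := by
  have : (0 : ℝ) < d := by exact_mod_cast hd
  unfold c₁; positivity

theorem c₁_facts {d : ℕ} (hd : 1 ≤ d) : c₁ d ≤ 1 / 2 ∧ c₁ d ≤ (1 / (192 * d * 4 ^ d)) ^ d ∧
    c₁ d ≤ 1 / 2 * (1 / (64 * d)) ^ d ∧ c₁ d ≤ (1 / (16 * d)) ^ d ∧ c₁ d ≤ 1 / 16 / 4 ^ d := by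
  have hd0 : (1 : ℝ) ≤ d := by exact_mod_cast hd
  have h4 : (1 : ℝ) ≤ 4 ^ d := one_le_pow₀ (by norm_num)
  have h4' : (4 : ℝ) ≤ 4 ^ d := by
    calc (4 : ℝ) = 4 ^ 1 := (pow_one _).symm
      _ ≤ 4 ^ d := pow_le_pow_right₀ (by norm_num) hd
  have hbig : (192 : ℝ) ≤ 192 * d * 4 ^ d := by nlinarith
  have hx0 : 0 < 1 / (192 * (d : ℝ) * 4 ^ d) := by positivity
  have hx1 : 1 / (192 * (d : ℝ) * 4 ^ d) ≤ 1 := by
    rw [div_le_one (by linarith)]; linarith
  have hpow0 : 0 < (1 / (192 * (d : ℝ) * 4 ^ d)) ^ d := by positivity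
  have hpow1 : (1 / (192 * (d : ℝ) * 4 ^ d)) ^ d ≤ 1 := pow_le_one₀ hx0.le hx1
  have hmono : ∀ y : ℝ, 0 < y → y ≤ 192 * d * 4 ^ d →
      (1 / (192 * (d : ℝ) * 4 ^ d)) ^ d ≤ (1 / y) ^ d := by
    intro y hy hy2
    exact pow_le_pow_left₀ hx0.le (one_div_le_one_div_of_le hy hy2) d
  have h64 := hmono (64 * d) (by linarith) (by nlinarith)
  have h16 := hmono (16 * d) (by linarith) (by nlinarith)
  unfold c₁
  refine ⟨by linarith, by linarith, by linarith, by linarith, ?_⟩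
  have h5 : (1 / (192 * (d : ℝ) * 4 ^ d)) ^ d ≤ (1 / (192 * (d : ℝ) * 4 ^ d)) ^ 1 :=
    pow_le_pow_of_le_one hx0.le hx1 hd
  rw [pow_one] at h5
  have h6 : 1 / (192 * (d : ℝ) * 4 ^ d) ≤ 1 / 16 / 4 ^ d := by
    rw [div_div]
    apply one_div_le_one_div_of_le (by positivity)
    nlinarith
  linarith

/-- **Point sets with small discrepancy have a large Hilbert function.** -/
theorem result (d : ℕ) (hd : 1 ≤ d) : ∃ c : ℝ, 0 < c ∧ ∀ n : ℕ, 1 ≤ n →
    ∀ (m : ℕ) (lam : Fin m → ℝ) (ξ : Fin m → Fin d → ℝ),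
      (∀ μ, ξ μ ∈ Set.Icc (0 : Fin d → ℝ) 1) →
      (∀ Z : Set (Fin d → ℝ), (hilbert Z n : ℝ) ≤ c * (n : ℝ) ^ d →
        (Nat.card {μ : Fin m // ξ μ ∉ Z} : ℝ) ≤ c * (n : ℝ) ^ d →
        ENNReal.ofReal c ≤ volume {x : Fin d → ℝ | x ∈ Set.Icc (0 : Fin d → ℝ) 1 ∧
          c / (n : ℝ) ^ d ≤ |localDisc lam ξ x|}) ∧
      (∀ q : ENNReal, 1 ≤ q → starDisc q lam ξ < ENNReal.ofReal (c / (n : ℝ) ^ d) →
        ∀ S : Finset (Fin m), (S.card : ℝ) ≤ c * (n : ℝ) ^ d →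
          c * (n : ℝ) ^ d < hilbert (ξ '' {μ : Fin m | μ ∉ S}) n) := by
  have hc1 := c₁_pos hd
  obtain ⟨f1, f2, f3, f4, f5⟩ := c₁_facts hd
  have hcsq : c₁ d ^ 2 ≤ c₁ d := by nlinarith
  have hd0 : (1 : ℝ) ≤ d := by exact_mod_cast hd
  refine ⟨c₁ d ^ 2, by positivity, ?_⟩
  intro n hn m lam ξ hξ
  have hn0 : (0 : ℝ) < n := by exact_mod_cast hn
  have hnd : (0 : ℝ) < (n : ℝ) ^ d := by positivity
  have key : ∀ Z : Set (Fin d → ℝ), (hilbert Z n : ℝ) ≤ c₁ d ^ 2 * (n : ℝ) ^ d →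
      (Nat.card {μ : Fin m // ξ μ ∉ Z} : ℝ) ≤ c₁ d ^ 2 * (n : ℝ) ^ d →
      ENNReal.ofReal (c₁ d) ≤ volume {x : Fin d → ℝ | x ∈ Set.Icc (0 : Fin d → ℝ) 1 ∧
        c₁ d / (n : ℝ) ^ d ≤ |localDisc lam ξ x|} := by
    intro Z hZ hexc
    have hb : c₁ d ^ 2 * (n : ℝ) ^ d ≤ 1 / 16 * (n / 4) ^ d := by
      have : 1 / 16 * ((n : ℝ) / 4) ^ d = 1 / 16 / 4 ^ d * (n : ℝ) ^ d := by
        rw [div_pow]; ring
      rw [this]
      exact mul_le_mul_of_nonneg_right (hcsq.trans f5) hnd.le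
    have hb0 : 0 ≤ ((n : ℝ) / 4) ^ d := by positivity
    have h1 := H894alg.lowerZ hd hn Z (by rw [← hilbert_eq]; linarith) lam ξ
      (fun μ i => (hξ μ).1 i) (by linarith)
    refine (ENNReal.ofReal_le_ofReal f3).trans (h1.trans (measure_mono ?_))
    rintro x ⟨hx1, hx2⟩
    refine ⟨hx1, le_trans ?_ hx2⟩
    have : (1 / (16 * (d : ℝ) * n)) ^ d = (1 / (16 * d)) ^ d / (n : ℝ) ^ d := by
      rw [← div_pow, div_div]
    rw [this]
    exact div_le_div_of_nonneg_right f4 hnd.le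
  refine ⟨?_, ?_⟩
  · intro Z hZ hexc
    refine (ENNReal.ofReal_le_ofReal hcsq).trans ((key Z hZ hexc).trans (measure_mono ?_))
    rintro x ⟨hx1, hx2⟩
    exact ⟨hx1, le_trans (div_le_div_of_nonneg_right hcsq hnd.le) hx2⟩
  · intro q hq hlt S hS
    by_contra hcon
    push Not at hcon
    have hcard : (Nat.card {μ : Fin m // ξ μ ∉ ξ '' {μ : Fin m | μ ∉ S}} : ℝ) ≤
        c₁ d ^ 2 * (n : ℝ) ^ d := by
      refine le_trans ?_ hS
      have : Nat.card {μ : Fin m // ξ μ ∉ ξ '' {μ : Fin m | μ ∉ S}} ≤ S.card := by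
        classical
        rw [Nat.card_eq_fintype_card, Fintype.card_subtype]
        apply Finset.card_le_card
        intro μ hμ
        rw [Finset.mem_filter] at hμ
        by_contra hn
        exact hμ.2 ⟨μ, hn, rfl⟩
      exact_mod_cast this
    have h1 := key _ hcon hcard
    have h2 := norm_lower lam ξ hξ (t := c₁ d / (n : ℝ) ^ d) (by positivity) h1 hq
    have h3 : c₁ d / (n : ℝ) ^ d * c₁ d = c₁ d ^ 2 / (n : ℝ) ^ d := by ring
    rw [h3] at h2
    exact absurd hlt (not_lt.2 h2)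

end Pool.Agent.Results.MP_173de9_an.LargeHilbertFunction
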