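import Pool.Agent.H894alg.Gen
import Pool.Agent.H894alg.Zero

/-!
# Star discrepancy of point sets on algebraic sets: the exact order in every positive dimension

The Hilbert function of `Z ⊆ ℝ^d` at `n` is the dimension of the space of functions on `Z` given by the
polynomials of degree `< n` in each variable.  `Z` has dimension at most `r` and degree at most `D` if
its Hilbert function is at most `D n^r` for all `n ≥ 1`; for `r = 0` these are the sets of at most `D`
points, so that for `r = 0` the quantity below is the optimal star discrepancy of `D` points (with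
arbitrary weights), the quantity of the problem.  We show: for `1 ≤ r ≤ d - 1` the optimal `L_q` star
discrepancy of the weighted finite point sets on sets of dimension `r` and degree `D` is of the exact
order `D^(-d/(d-r))`, for all `1 ≤ q ≤ ∞`, and this order is attained on unions of `D` axis-parallel
flats.  There are no logarithms and there is no difference between the exponents `q`: both are
phenomena of dimension `0`.  For `r = d - 1` (hypersurfaces of degree `D`, order `D^(-d)`) equal weights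
suffice.

Proof of the lower bound: by the Cayley transform the polynomials of degree `< n` become trigonometric
polynomials, an `n^d`-dimensional Hilbert space with an orthogonal basis of evaluations at `n^d` grid
points.  If the cube of side `1/(4dn)` at a grid point contains a point of `Z`, the evaluation at
that point is near to the basis vector, so the number of these cubes is at most `4/3` times the Hilbert
function.  The other cubes are empty.  Upper bound: the product `⊗ (λ - comb)` is expanded into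
tensor products of differences of combs, and the terms of an index set which is a trimmed hyperbolic
cross are kept; for equal weights and `r = d - 1` the points with `x_1 + ... + x_d ∈ (1/k) ℤ` of a
fine grid are taken.
-/

set_option autoImplicit false

namespace Pool.Agent.Results.MP_173de9_an.LowDegreeSets

open MeasureTheory

/-- The local discrepancy `∏ x_j - Σ_μ λ_μ χ_{[0,x]}(ξ^μ)` of the points `ξ` with the weights `λ`. -/
noncomputable def localDisc {m d : ℕ} (lam : Fin m → ℝ) (ξ : Fin m → Fin d → ℝ) (x : Fin d → ℝ) : ℝ :=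
  ∏ j, x j - ∑ μ : Fin m, lam μ * (Set.Icc (0 : Fin d → ℝ) x).indicator (fun _ => (1:ℝ)) (ξ μ)

/-- The `L_q` norm of the weighted local discrepancy over `[0,1]^d`. -/
noncomputable def starDisc (q : ENNReal) {m d : ℕ} (lam : Fin m → ℝ) (ξ : Fin m → Fin d → ℝ) :
    ENNReal :=
  eLpNorm (localDisc lam ξ) q (volume.restrict (Set.Icc (0 : Fin d → ℝ) 1))

/-- The Hilbert function of `Z`: the dimension of the space of functions on `Z` which is spanned by
the monomials with all exponents `< n`. -/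
noncomputable def hilbert {d : ℕ} (Z : Set (Fin d → ℝ)) (n : ℕ) : ℕ :=
  Module.finrank ℝ (Submodule.span ℝ
    (Set.range (fun (j : Fin d → Fin n) (x : Z) => ∏ i, (x : Fin d → ℝ) i ^ (j i : ℕ))))

/-- `Z` has dimension at most `r` and degree at most `D`, in terms of its Hilbert function. -/
def HasDegree {d : ℕ} (r D : ℕ) (Z : Set (Fin d → ℝ)) : Prop :=
  ∀ n : ℕ, 1 ≤ n → hilbert Z n ≤ D * n ^ r

/-- The optimal `L_q` star discrepancy of the weighted finite point sets in `[0,1]^d` on sets of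
dimension `r` and degree `D`. -/
noncomputable def optDisc (q : ENNReal) (r D d : ℕ) : ENNReal :=
  ⨅ (Z : Set (Fin d → ℝ)) (_ : HasDegree r D Z) (m : ℕ) (lam : Fin m → ℝ)
    (ξ : Fin m → Fin d → ℝ) (_ : ∀ μ, ξ μ ∈ Z ∩ Set.Icc (0 : Fin d → ℝ) 1), starDisc q lam ξ

/-- The union of the flats `{x | x_i = a_i for all i ∉ T}` for the pairs `(T, a)` of `Φ`. -/
def flats {d : ℕ} (Φ : Finset (Finset (Fin d) × (Fin d → ℝ))) : Set (Fin d → ℝ) :=
  {x : Fin d → ℝ | ∃ φ ∈ Φ, ∀ i, i ∉ φ.1 → x i = φ.2 i}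

/-- The optimal `L_q` star discrepancy of the weighted finite point sets in `[0,1]^d` on unions of at
most `D` axis-parallel flats of dimension `r`. -/
noncomputable def optFlats (q : ENNReal) (r D d : ℕ) : ENNReal :=
  ⨅ (Φ : Finset (Finset (Fin d) × (Fin d → ℝ))) (_ : ∀ φ ∈ Φ, φ.1.card = r) (_ : Φ.card ≤ D)
    (m : ℕ) (lam : Fin m → ℝ) (ξ : Fin m → Fin d → ℝ)
    (_ : ∀ μ, ξ μ ∈ flats Φ ∩ Set.Icc (0 : Fin d → ℝ) 1), starDisc q lam ξ

/-- The same as `optDisc` with equal weights `1 / m`. -/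
noncomputable def optEqual (q : ENNReal) (r D d : ℕ) : ENNReal :=
  ⨅ (Z : Set (Fin d → ℝ)) (_ : HasDegree r D Z) (m : ℕ) (_ : 1 ≤ m)
    (ξ : Fin m → Fin d → ℝ) (_ : ∀ μ, ξ μ ∈ Z ∩ Set.Icc (0 : Fin d → ℝ) 1),
    starDisc q (fun _ => 1 / (m : ℝ)) ξ

/-- The optimal `L_q` star discrepancy of at most `D` points of `[0,1]^d` with arbitrary weights. -/
noncomputable def optPoints (q : ENNReal) (D d : ℕ) : ENNReal :=
  ⨅ (m : ℕ) (_ : m ≤ D) (lam : Fin m → ℝ) (ξ : Fin m → Fin d → ℝ)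
    (_ : ∀ μ, ξ μ ∈ Set.Icc (0 : Fin d → ℝ) 1), starDisc q lam ξ

theorem localDisc_eq {m d : ℕ} (lam : Fin m → ℝ) (ξ : Fin m → Fin d → ℝ) :
    localDisc lam ξ = H894alg.ld lam ξ := rfl

theorem hilbert_eq {d : ℕ} (Z : Set (Fin d → ℝ)) (n : ℕ) : hilbert Z n = H894alg.hilb Z n := rfl

instance prob (d : ℕ) : IsProbabilityMeasure (volume.restrict (Set.Icc (0 : Fin d → ℝ) 1)) := by
  constructor
  rw [Measure.restrict_apply MeasurableSet.univ, Set.univ_inter, Real.volume_Icc_pi]
  simp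

theorem meas {m d : ℕ} (lam : Fin m → ℝ) (ξ : Fin m → Fin d → ℝ)
    (hξ : ∀ μ, ξ μ ∈ Set.Icc (0 : Fin d → ℝ) 1) : Measurable (localDisc lam ξ) := by
  rw [localDisc_eq]
  exact H894alg.measurable_ld lam ξ (fun μ i => (hξ μ).1 i)

/-- from measure to norm -/
theorem norm_lower {m d : ℕ} (lam : Fin m → ℝ) (ξ : Fin m → Fin d → ℝ)
    (hξ : ∀ μ, ξ μ ∈ Set.Icc (0 : Fin d → ℝ) 1) {a t : ℝ} (ht : 0 ≤ t)
    (h : ENNReal.ofReal a ≤ volume {x : Fin d → ℝ | x ∈ Set.Icc (0 : Fin d → ℝ) 1 ∧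
      t ≤ |localDisc lam ξ x|}) {q : ENNReal} (hq : 1 ≤ q) :
    ENNReal.ofReal (t * a) ≤ starDisc q lam ξ := by
  have hm := meas lam ξ hξ
  calc ENNReal.ofReal (t * a) = ENNReal.ofReal t * ENNReal.ofReal a := ENNReal.ofReal_mul ht
    _ ≤ ENNReal.ofReal t * (volume.restrict (Set.Icc (0 : Fin d → ℝ) 1))
        {x | ENNReal.ofReal t ≤ ‖localDisc lam ξ x‖ₑ} := by
        gcongr
        refine h.trans ?_
        rw [Measure.restrict_apply (measurableSet_le measurable_const hm.enorm)]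
        apply measure_mono
        rintro x ⟨hx1, hx2⟩
        refine ⟨?_, hx1⟩
        show ENNReal.ofReal t ≤ ‖localDisc lam ξ x‖ₑ
        rw [← ofReal_norm, Real.norm_eq_abs]
        exact ENNReal.ofReal_le_ofReal hx2
    _ ≤ ∫⁻ x in Set.Icc (0 : Fin d → ℝ) 1, ‖localDisc lam ξ x‖ₑ :=
        mul_meas_ge_le_lintegral hm.enorm _
    _ = eLpNorm (localDisc lam ξ) 1 (volume.restrict (Set.Icc (0 : Fin d → ℝ) 1)) := by
        rw [eLpNorm_one_eq_lintegral_enorm]
    _ ≤ starDisc q lam ξ :=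
        eLpNorm_le_eLpNorm_of_exponent_le hq hm.aestronglyMeasurable

theorem norm_upper {m d : ℕ} (lam : Fin m → ℝ) (ξ : Fin m → Fin d → ℝ)
    (hξ : ∀ μ, ξ μ ∈ Set.Icc (0 : Fin d → ℝ) 1) {t : ℝ}
    (h : ∀ x ∈ Set.Icc (0 : Fin d → ℝ) 1, |localDisc lam ξ x| ≤ t) (q : ENNReal) :
    starDisc q lam ξ ≤ ENNReal.ofReal t := by
  have hm := meas lam ξ hξ
  calc starDisc q lam ξ ≤ starDisc ⊤ lam ξ :=
        eLpNorm_le_eLpNorm_of_exponent_le le_top hm.aestronglyMeasurable
    _ ≤ ENNReal.ofReal t := by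
        unfold starDisc
        rw [eLpNorm_exponent_top]
        apply eLpNormEssSup_le_of_ae_bound
        rw [ae_restrict_iff' measurableSet_Icc]
        filter_upwards with x hx
        rw [Real.norm_eq_abs]
        exact h x hx

/-- the constant -/
noncomputable def c₁ (d : ℕ) : ℝ := 1 / 2 * (1 / (192 * d * 4 ^ d)) ^ d

theorem c₁_pos {d : ℕ} (hd : 1 ≤ d) : 0 < c₁ d := by
  have : (0 : ℝ) < d := by exact_mod_cast hd
  unfold c₁; positivity

theorem c₁_facts {d : ℕ} (hd : 1 ≤ d) : c₁ d ≤ 1 / 2 ∧ c₁ d ≤ (1 / (192 * d * 4 ^ d)) ^ d ∧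
    c₁ d ≤ 1 / 2 * (1 / (64 * d)) ^ d ∧ c₁ d ≤ (1 / (16 * d)) ^ d ∧ c₁ d ≤ 1 / 16 / 4 ^ d := by
  have hd0 : (1 : ℝ) ≤ d := by exact_mod_cast hd
  have h4 : (1 : ℝ) ≤ 4 ^ d := one_le_pow₀ (by norm_num)
  have h4' : (4 : ℝ) ≤ 4 ^ d := by
    calc (4 : ℝ) = 4 ^ 1 := (pow_one _).symm
      _ ≤ 4 ^ d := pow_le_pow_right₀ (by norm_num) hd
  have hbig : (192 : ℝ) ≤ 192 * d * 4 ^ d := by nlinarith
  have hx0 : 0 < 1 / (192 * (d : ℝ) * 4 ^ d) := by positivity
  have hx1 : 1 / (192 * (d : ℝ) * 4 ^ d) ≤ 1 := by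
    rw [div_le_one (by linarith)]; linarith
  have hpow0 : 0 < (1 / (192 * (d : ℝ) * 4 ^ d)) ^ d := by positivity
  have hpow1 : (1 / (192 * (d : ℝ) * 4 ^ d)) ^ d ≤ 1 := pow_le_one₀ hx0.le hx1
  have hmono : ∀ y : ℝ, 0 < y → y ≤ 192 * d * 4 ^ d →
      (1 / (192 * (d : ℝ) * 4 ^ d)) ^ d ≤ (1 / y) ^ d := by
    intro y hy hy2
    exact pow_le_pow_left₀ hx0.le (one_div_le_one_div_of_le hy hy2) d
  have h64 := hmono (64 * d) (by linarith) (by nlinarith)
  have h16 := hmono (16 * d) (by linarith) (by nlinarith)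
  unfold c₁
  refine ⟨by linarith, by linarith, by linarith, by linarith, ?_⟩
  have h5 : (1 / (192 * (d : ℝ) * 4 ^ d)) ^ d ≤ (1 / (192 * (d : ℝ) * 4 ^ d)) ^ 1 :=
    pow_le_pow_of_le_one hx0.le hx1 hd
  rw [pow_one] at h5
  have h6 : 1 / (192 * (d : ℝ) * 4 ^ d) ≤ 1 / 16 / 4 ^ d := by
    rw [div_div]
    apply one_div_le_one_div_of_le (by positivity)
    nlinarith
  linarith

/-- **Star discrepancy of point sets on algebraic sets of positive dimension.** -/
theorem result (d : ℕ) (hd : 1 ≤ d) : ∃ c C : ℝ, 0 < c ∧ 0 < C ∧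
    -- (1) the exact order for dimension `1 ≤ r ≤ d - 1` and degree `D`
    (∀ r D : ℕ, 1 ≤ r → r < d → 1 ≤ D → ∀ q : ENNReal, 1 ≤ q →
      ENNReal.ofReal (c * (D : ℝ) ^ (-((d : ℝ) / ((d : ℝ) - r)))) ≤ optDisc q r D d ∧
      optDisc q r D d ≤ optFlats q r D d ∧
      optFlats q r D d ≤ ENNReal.ofReal (C * (D : ℝ) ^ (-((d : ℝ) / ((d : ℝ) - r))))) ∧
    -- (2) equal weights suffice for `r = d - 1`
    (∀ D : ℕ, 1 ≤ D → ∀ q : ENNReal, 1 ≤ q →
      ENNReal.ofReal (c / (D : ℝ) ^ d) ≤ optDisc q (d - 1) D d ∧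
      optDisc q (d - 1) D d ≤ optEqual q (d - 1) D d ∧
      optEqual q (d - 1) D d ≤ ENNReal.ofReal (C / (D : ℝ) ^ d)) ∧
    -- (3) dimension 0: the quantity of the problem, with weights
    (∀ (q : ENNReal) (D : ℕ), optDisc q 0 D d = optPoints q D d) ∧
    -- (4) zero sets of polynomials of degree at most `k` have dimension `d - 1` and degree `d k`
    (∀ (k : ℕ) (P : MvPolynomial (Fin d) ℝ), P ≠ 0 → (∀ i, P.degreeOf i ≤ k) →
      HasDegree (d - 1) (d * k) {x : Fin d → ℝ | MvPolynomial.eval x P = 0}) := by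
  have hc1 := c₁_pos hd
  obtain ⟨f1, f2, f3, f4, f5⟩ := c₁_facts hd
  have hd0 : (1 : ℝ) ≤ d := by exact_mod_cast hd
  have hCC : 0 < H894alg.CC d := by
    unfold H894alg.CC
    have : (0 : ℝ) < d := by linarith
    positivity
  have hE : (0 : ℝ) < 2 * (2 * (d : ℝ) ^ 2) ^ d := by positivity
  have hlow : ∀ r D : ℕ, r < d → 1 ≤ D → ∀ q : ENNReal, 1 ≤ q →
      ENNReal.ofReal (c₁ d ^ 2 * (D : ℝ) ^ (-((d : ℝ) / ((d : ℝ) - r)))) ≤ optDisc q r D d := by
    intro r D hr hD q hq
    have hD0 : (0 : ℝ) ≤ (D : ℝ) ^ (-((d : ℝ) / ((d : ℝ) - r))) := by positivity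
    unfold optDisc
    apply le_iInf; intro Z
    apply le_iInf; intro hZ
    apply le_iInf; intro m
    apply le_iInf; intro lam
    apply le_iInf; intro ξ
    apply le_iInf; intro hξ
    have hcard : Nat.card {μ : Fin m // ξ μ ∉ Z} = 0 := by
      rw [Nat.card_eq_zero]
      left
      exact ⟨fun μ => μ.2 (hξ μ.1).1⟩
    have h1 := H894alg.lower_gen hd hr hD Z hZ lam ξ (fun μ i => (hξ μ).2.1 i)
      (by rw [hcard]; simp; positivity)
    have h2 := norm_lower lam ξ (fun μ => (hξ μ).2)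
      (t := (1 / (192 * d * 4 ^ d)) ^ d * (D : ℝ) ^ (-((d : ℝ) / ((d : ℝ) - r))))
      (by positivity) h1 hq
    refine le_trans (ENNReal.ofReal_le_ofReal ?_) h2
    have h3 : c₁ d * c₁ d ≤ (1 / (192 * d * 4 ^ d)) ^ d * (1 / 2 * (1 / (64 * d)) ^ d) :=
      mul_le_mul f2 f3 hc1.le (by positivity)
    calc c₁ d ^ 2 * (D : ℝ) ^ (-((d : ℝ) / ((d : ℝ) - r)))
        = (c₁ d * c₁ d) * (D : ℝ) ^ (-((d : ℝ) / ((d : ℝ) - r))) := by ring
      _ ≤ ((1 / (192 * d * 4 ^ d)) ^ d * (1 / 2 * (1 / (64 * d)) ^ d)) *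
          (D : ℝ) ^ (-((d : ℝ) / ((d : ℝ) - r))) := mul_le_mul_of_nonneg_right h3 hD0
      _ = _ := by ring
  refine ⟨c₁ d ^ 2, H894alg.CC d + 2 * (2 * (d : ℝ) ^ 2) ^ d, by positivity, by positivity,
    ?_, ?_, ?_, ?_⟩
  · intro r D hr1 hr hD q hq
    have hD0 : (0 : ℝ) ≤ (D : ℝ) ^ (-((d : ℝ) / ((d : ℝ) - r))) := by positivity
    refine ⟨hlow r D hr hD q hq, ?_, ?_⟩
    · unfold optFlats
      apply le_iInf; intro Φ
      apply le_iInf; intro hΦ
      apply le_iInf; intro hΦD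
      apply le_iInf; intro m
      apply le_iInf; intro lam
      apply le_iInf; intro ξ
      apply le_iInf; intro hξ
      unfold optDisc
      refine iInf_le_of_le (flats Φ) (iInf_le_of_le ?_ (iInf_le_of_le m (iInf_le_of_le lam
        (iInf_le_of_le ξ (iInf_le_of_le hξ le_rfl)))))
      intro n _
      rw [hilbert_eq]
      exact (H894alg.hilb_flats Φ hΦ _ (fun x hx => hx) n).trans (Nat.mul_le_mul_right _ hΦD)
    · obtain ⟨N, lam, ξ, Φ, a1, a2, a3, a4, a5⟩ := H894alg.upper_gen hr1 hr hD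
      unfold optFlats
      refine iInf_le_of_le Φ (iInf_le_of_le a1 (iInf_le_of_le a2 (iInf_le_of_le N
        (iInf_le_of_le lam (iInf_le_of_le ξ (iInf_le_of_le (fun μ => ⟨a4 μ, a3 μ⟩) ?_))))))
      apply norm_upper lam ξ a3
      intro x hx
      refine (a5 x hx).trans ?_
      exact mul_le_mul_of_nonneg_right (by linarith) hD0
  · intro D hD q hq
    refine ⟨?_, ?_, ?_⟩
    · have h1 := hlow (d - 1) D (by omega) hD q hq
      have h2 : (d : ℝ) / ((d : ℝ) - ((d - 1 : ℕ) : ℝ)) = d := by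
        rw [Nat.cast_sub hd]
        simp
      rw [h2, Real.rpow_neg (Nat.cast_nonneg D), Real.rpow_natCast, ← div_eq_mul_inv] at h1
      exact h1
    · unfold optEqual
      apply le_iInf; intro Z
      apply le_iInf; intro hZ
      apply le_iInf; intro m
      apply le_iInf; intro hm
      apply le_iInf; intro ξ
      apply le_iInf; intro hξ
      unfold optDisc
      exact iInf_le_of_le Z (iInf_le_of_le hZ (iInf_le_of_le m (iInf_le_of_le _
        (iInf_le_of_le ξ (iInf_le_of_le hξ le_rfl)))))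
    · obtain ⟨m, ξ, Z, a1, a2, a3, a4, a5⟩ := H894alg.upper_equal hd hD
      unfold optEqual
      refine iInf_le_of_le Z (iInf_le_of_le a2 (iInf_le_of_le m (iInf_le_of_le a1
        (iInf_le_of_le ξ (iInf_le_of_le (fun μ => ⟨a4 μ, a3 μ⟩) ?_)))))
      apply norm_upper _ ξ a3
      intro x hx
      refine (a5 x hx).trans ?_
      have : (0 : ℝ) ≤ (D : ℝ) ^ d := by positivity
      exact div_le_div_of_nonneg_right (by linarith) this
  · intro q D
    apply le_antisymm
    · unfold optPoints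
      apply le_iInf; intro m
      apply le_iInf; intro hm
      apply le_iInf; intro lam
      apply le_iInf; intro ξ
      apply le_iInf; intro hξ
      unfold optDisc
      refine iInf_le_of_le (Set.range ξ) (iInf_le_of_le ?_ (iInf_le_of_le m (iInf_le_of_le lam
        (iInf_le_of_le ξ (iInf_le_of_le (fun μ => ⟨⟨μ, rfl⟩, hξ μ⟩) le_rfl)))))
      intro n _
      rw [hilbert_eq]
      classical
      refine (H894alg.hilb_flats (r := 0) (Finset.univ.image (fun μ => ((∅ : Finset (Fin d)), ξ μ)))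
        ?_ _ ?_ n).trans (Nat.mul_le_mul_right _ ?_)
      · intro φ hφ
        obtain ⟨μ, _, rfl⟩ := Finset.mem_image.1 hφ
        rfl
      · rintro x ⟨μ, rfl⟩
        exact ⟨(∅, ξ μ), Finset.mem_image.2 ⟨μ, Finset.mem_univ _, rfl⟩, fun i _ => rfl⟩
      · exact Finset.card_image_le.trans (by simpa using hm)
    · unfold optDisc
      apply le_iInf; intro Z
      apply le_iInf; intro hZ
      apply le_iInf; intro m
      apply le_iInf; intro lam
      apply le_iInf; intro ξ
      apply le_iInf; intro hξ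
      obtain ⟨hfin, hcard⟩ := H894alg.zero_dim Z hZ
      obtain ⟨s, lam', ξ', b1, b2, b3⟩ := H894alg.merge Z hfin hcard lam ξ hξ
      unfold optPoints
      refine iInf_le_of_le s (iInf_le_of_le b1 (iInf_le_of_le lam' (iInf_le_of_le ξ'
        (iInf_le_of_le b2 (le_of_eq ?_)))))
      unfold starDisc
      rw [localDisc_eq, localDisc_eq, b3]
  · intro k P hP0 hP n _
    rw [hilbert_eq]
    exact H894alg.hilb_hyper hd k P hP0 hP _ (fun x hx => hx) n

end Pool.Agent.Results.MP_173de9_an.LowDegreeSets
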