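import Mathlib
import Pool.Agent.Helper634ord.Disc2
import Pool.Agent.Helper634ord.Disc3
import Pool.Agent.Helper634ord.Disc5

/-!
# Star discrepancy of point sets locally closed under an order operation (MP_173de9_an)

An order operation is a map `f : ℝ ^ k → ℝ` which commutes with all nondecreasing maps of the real line
(minimum, maximum, median, every lattice polynomial).  Let `m` points of `[0,1]^d` be closed under an
order operation which is not a projection, applied coordinatewise, but only for points whose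
coordinates differ by at most `ρ`, where `m ^ (-1/d) ≤ ρ ≤ 1`.  We prove that the `L_q` star
discrepancy is at least `c_d ρ ^ (d-1) m ^ (-1/d)`, `1 ≤ q ≤ ∞`.  So a point set whose `L_q`
discrepancy has the optimal order `m⁻¹ (ln m) ^ ((d-1)/2)` is not closed in this sense within distance
`λ m ^ (-1/d) (ln m) ^ (1/2)`, `λ` a large constant; the typical distance of neighbouring points is
`m ^ (-1/d)`.  For sets closed without restriction of the distances the order of the optimal
discrepancy is exactly `m ^ (-1/d)` for all `q`.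

Proof of the lower bound: cut the cube into cubes of side about `ρ` and half of each of these, in every
coordinate direction, into `k` thin slabs, with `k ^ d` larger than a multiple of the number of
points of the cube.  If more than half of the slabs contain a point in every direction, the operation
combines these points to more points than there are; so in some direction half of the slabs are empty,
which gives a contribution to the discrepancy from every cube with few points.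
-/

set_option autoImplicit false

namespace Pool.Agent.Results.MP_173de9_an.OrderClosedSets

open MeasureTheory
open Pool.Agent.Helper634ord (OrderOperation IsProjection ClosedUnder)
open Pool.Agent.Helper634ord.Disc (localDisc)

/-- `D(ξ,m,d)_q`: the `L_q` norm of the local discrepancy over `[0,1]^d`. -/
noncomputable def starDisc (q : ENNReal) {m d : ℕ} (ξ : Fin m → Fin d → ℝ) : ENNReal :=
  eLpNorm (localDisc ξ) q (volume.restrict (Set.Icc (0 : Fin d → ℝ) 1))

/-- `D(m,d)_q`: the infimum over all `m`-point sets (repetitions allowed) in `[0,1]^d`. -/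
noncomputable def optDisc (q : ENNReal) (m d : ℕ) : ENNReal :=
  ⨅ (ξ : Fin m → Fin d → ℝ) (_ : ∀ μ, ξ μ ∈ Set.Icc (0 : Fin d → ℝ) 1), starDisc q ξ

/-- The same infimum over the `m`-point sets in `[0,1]^d` which are closed under all operations of
the family `Φ`, applied coordinatewise. -/
noncomputable def optClosed (Φ : (k : ℕ) → Set ((Fin k → ℝ) → ℝ)) (q : ENNReal) (m d : ℕ) :
    ENNReal :=
  ⨅ (ξ : Fin m → Fin d → ℝ) (_ : ∀ μ, ξ μ ∈ Set.Icc (0 : Fin d → ℝ) 1)
    (_ : ∀ k, ∀ f ∈ Φ k, ClosedUnder (Set.range ξ) f), starDisc q ξ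

/-- The set `P` is closed under `f`, applied coordinatewise to points of `P` whose coordinates differ
by at most `ρ`. -/
def ClosedWithin {k d : ℕ} (ρ : ℝ) (P : Set (Fin d → ℝ)) (f : (Fin k → ℝ) → ℝ) : Prop :=
  ∀ c : Fin k → Fin d → ℝ, (∀ j, c j ∈ P) → (∀ i j l, |c i l - c j l| ≤ ρ) →
    (fun i => f (fun j => c j i)) ∈ P

instance prob (d : ℕ) : IsProbabilityMeasure (volume.restrict (Set.Icc (0 : Fin d → ℝ) 1)) := by
  constructor
  rw [Measure.restrict_apply MeasurableSet.univ, Set.univ_inter, Real.volume_Icc_pi]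
  simp

theorem localDisc_meas {m d : ℕ} (ξ : Fin m → Fin d → ℝ) (h0 : ∀ μ j, 0 ≤ ξ μ j) :
    Measurable (localDisc ξ) := by
  have h : localDisc ξ = fun x => ∏ j, x j - (1 / (m : ℝ)) *
      ∑ μ : Fin m, ∏ j, Pool.Agent.Helper634ord.Disc.step (ξ μ j) (x j) := by
    funext x
    exact Pool.Agent.Helper634ord.Disc.localDisc_eq ξ h0 x
  rw [h]
  apply Measurable.sub
  · exact Finset.measurable_prod _ (fun j _ => measurable_pi_apply j)
  · apply Measurable.const_mul
    apply Finset.measurable_sum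
    intro μ _
    apply Finset.measurable_prod
    intro j _
    exact (Pool.Agent.Helper634ord.Disc.step_meas (ξ μ j)).comp (measurable_pi_apply j)

/-- closure in small cubes -/
theorem lcs_cube {k m d : ℕ} {ρ : ℝ} {ξ : Fin m → Fin d → ℝ} {f : (Fin k → ℝ) → ℝ}
    (hf : OrderOperation f) (hp : ¬ IsProjection f) (h : ClosedWithin ρ (Set.range ξ) f)
    (q : Fin d → ℝ) (s : ℝ) (hs : s ≤ ρ) :
    Pool.Agent.Helper634ord.LCS (Set.range ξ ∩ Pool.Agent.Helper634ord.Disc.cube q s) := by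
  apply Pool.Agent.Helper634ord.closed_cases hf hp
  intro c hc
  refine ⟨h c (fun j => (hc j).1) (fun i j l => ?_), fun i => ?_⟩
  · have h1 := (hc i).2 l
    have h2 := (hc j).2 l
    rw [abs_le]
    constructor <;> linarith [h1.1, h1.2, h2.1, h2.2]
  · obtain ⟨j, hj⟩ := Pool.Agent.Helper634ord.mem_range hf (fun j => c j i)
    show q i ≤ f (fun j => c j i) ∧ f (fun j => c j i) < q i + s
    rw [hj]
    exact (hc j).2 i

/-- the lower bound for locally closed sets -/
theorem local_lower {k m d : ℕ} (hd : 1 ≤ d) (hm : 1 ≤ m) {ρ : ℝ}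
    (hρ0 : (m : ℝ) ^ (-(1 / (d : ℝ))) ≤ ρ) (hρ1 : ρ ≤ 1) {ξ : Fin m → Fin d → ℝ}
    (hξ : ∀ μ, ξ μ ∈ Set.Icc (0 : Fin d → ℝ) 1) {f : (Fin k → ℝ) → ℝ}
    (hf : OrderOperation f) (hp : ¬ IsProjection f) (h : ClosedWithin ρ (Set.range ξ) f)
    {q : ENNReal} (hq : 1 ≤ q) :
    ENNReal.ofReal (1 / (48 * 128 ^ d) * ρ ^ (d - 1) * (m : ℝ) ^ (-(1 / (d : ℝ)))) ≤
      starDisc q ξ := by
  have h0 : ∀ μ j, 0 ≤ ξ μ j := fun μ j => (hξ μ).1 j
  have h2 := Pool.Agent.Helper634ord.Disc.lower_rho hd hm ξ h0 hρ0 hρ1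
    (fun q s hs => lcs_cube hf hp h q s hs)
  calc ENNReal.ofReal (1 / (48 * 128 ^ d) * ρ ^ (d - 1) * (m : ℝ) ^ (-(1 / (d : ℝ))))
      ≤ ∫⁻ x in Set.Icc (0 : Fin d → ℝ) 1, ‖localDisc ξ x‖ₑ := h2
    _ = eLpNorm (localDisc ξ) 1 (volume.restrict (Set.Icc (0 : Fin d → ℝ) 1)) := by
        rw [eLpNorm_one_eq_lintegral_enorm]
    _ ≤ starDisc q ξ := by
        unfold starDisc
        exact eLpNorm_le_eLpNorm_of_exponent_le hq
          (localDisc_meas ξ h0).aestronglyMeasurable

/-- **Point sets closed under order operations.**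

(1) Let `d, m ≥ 1`, `m ^ (-1/d) ≤ ρ ≤ 1`, and let `m` points of `[0,1]^d` be closed within distance `ρ`
(in every coordinate) under some order operation which is not a projection.  Then for all
`1 ≤ q ≤ ∞` the `L_q` star discrepancy is at least `ρ ^ (d-1) m ^ (-1/d) / (48 * 128 ^ d)`.

(2) In particular, if they are closed within distance `λ m ^ (-1/d) (ln m) ^ (1/2) ≤ 1`, where
`λ (ln m) ^ (1/2) ≥ 1`, it is at least
`λ ^ (d-1) / (48 * 128 ^ d)` times `m⁻¹ (ln m) ^ ((d-1)/2)`.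

(3) Let `Φ` be a family of order operations.  If all members of `Φ` are projections, the optimal
discrepancy of the point sets closed under `Φ` (without restriction of the distances) is
`D(m,d)_q`.  Otherwise, for every `d ≥ 1`, all `1 ≤ q ≤ ∞` and all `m ≥ 1`, it lies between
`m ^ (-1/d) / (24 * 64 ^ d)` and `d * 2 ^ (d+1) * m ^ (-1/d)`. -/
theorem result :
    (∀ d m : ℕ, 1 ≤ d → 1 ≤ m → ∀ ρ : ℝ, (m : ℝ) ^ (-(1 / (d : ℝ))) ≤ ρ → ρ ≤ 1 →
      ∀ ξ : Fin m → Fin d → ℝ, (∀ μ, ξ μ ∈ Set.Icc (0 : Fin d → ℝ) 1) →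
      ∀ (k : ℕ) (f : (Fin k → ℝ) → ℝ), OrderOperation f → ¬ IsProjection f →
        ClosedWithin ρ (Set.range ξ) f → ∀ q : ENNReal, 1 ≤ q →
          ENNReal.ofReal (1 / (48 * 128 ^ d) * ρ ^ (d - 1) * (m : ℝ) ^ (-(1 / (d : ℝ)))) ≤
            starDisc q ξ) ∧
    (∀ d m : ℕ, 1 ≤ d → 1 ≤ m → ∀ l : ℝ, 0 < l → 1 ≤ l * Real.sqrt (Real.log m) →
      l * (m : ℝ) ^ (-(1 / (d : ℝ))) * Real.sqrt (Real.log m) ≤ 1 →
      ∀ ξ : Fin m → Fin d → ℝ, (∀ μ, ξ μ ∈ Set.Icc (0 : Fin d → ℝ) 1) →
      ∀ (k : ℕ) (f : (Fin k → ℝ) → ℝ), OrderOperation f → ¬ IsProjection f →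
        ClosedWithin (l * (m : ℝ) ^ (-(1 / (d : ℝ))) * Real.sqrt (Real.log m)) (Set.range ξ) f →
        ∀ q : ENNReal, 1 ≤ q →
          ENNReal.ofReal (l ^ (d - 1) / (48 * 128 ^ d) *
            ((m : ℝ)⁻¹ * Real.log m ^ (((d : ℝ) - 1) / 2))) ≤ starDisc q ξ) ∧
    ∀ Φ : (k : ℕ) → Set ((Fin k → ℝ) → ℝ), (∀ k, ∀ f ∈ Φ k, OrderOperation f) →
    ((∀ k, ∀ f ∈ Φ k, IsProjection f) → ∀ q m d, optClosed Φ q m d = optDisc q m d) ∧
    ((∃ k, ∃ f ∈ Φ k, ¬ IsProjection f) → ∀ d : ℕ, 1 ≤ d → ∀ q : ENNReal, 1 ≤ q →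
      ∀ m : ℕ, 1 ≤ m →
        ENNReal.ofReal (1 / (24 * 64 ^ d) * (m : ℝ) ^ (-(1 / (d : ℝ)))) ≤ optClosed Φ q m d ∧
        optClosed Φ q m d ≤ ENNReal.ofReal (d * 2 ^ (d + 1) * (m : ℝ) ^ (-(1 / (d : ℝ))))) := by
  refine ⟨fun d m hd hm ρ hρ0 hρ1 ξ hξ k f hf hp h q hq =>
    local_lower hd hm hρ0 hρ1 hξ hf hp h hq, ?_, ?_⟩
  · intro d m hd hm l hl hl1 hl2 ξ hξ k f hf hp h q hq
    have hm0 : (1 : ℝ) ≤ m := by exact_mod_cast hm
    have hmp : (0 : ℝ) < m := by linarith
    have hd0 : (0 : ℝ) < d := by exact_mod_cast hd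
    have hlog : 0 ≤ Real.log m := Real.log_nonneg hm0
    have hx : 0 < (m : ℝ) ^ (-(1 / (d : ℝ))) := Real.rpow_pos_of_pos hmp _
    have hρ0 : (m : ℝ) ^ (-(1 / (d : ℝ))) ≤
        l * (m : ℝ) ^ (-(1 / (d : ℝ))) * Real.sqrt (Real.log m) := by
      calc (m : ℝ) ^ (-(1 / (d : ℝ))) = 1 * (m : ℝ) ^ (-(1 / (d : ℝ))) := (one_mul _).symm
        _ ≤ (l * Real.sqrt (Real.log m)) * (m : ℝ) ^ (-(1 / (d : ℝ))) :=
            mul_le_mul_of_nonneg_right hl1 hx.le
        _ = _ := by ring
    have h1 := local_lower hd hm hρ0 hl2 hξ hf hp h hq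
    refine le_trans (le_of_eq ?_) h1
    congr 1
    obtain ⟨e, rfl⟩ : ∃ e, d = e + 1 := ⟨d - 1, by omega⟩
    have e1 : (m : ℝ)⁻¹ = ((m : ℝ) ^ (-(1 / ((e + 1 : ℕ) : ℝ)))) ^ (e + 1) := by
      rw [← Real.rpow_natCast, ← Real.rpow_mul hmp.le, neg_mul, one_div_mul_cancel hd0.ne',
        Real.rpow_neg_one]
    have e2 : Real.log m ^ ((((e + 1 : ℕ) : ℝ) - 1) / 2) = Real.sqrt (Real.log m) ^ e := by
      rw [Real.sqrt_eq_rpow, ← Real.rpow_natCast, ← Real.rpow_mul hlog]
      congr 1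
      push_cast
      ring
    rw [e1, e2, show e + 1 - 1 = e by omega]
    ring
  intro Φ hΦ
  refine ⟨?_, ?_⟩
  · intro hproj q m d
    unfold optClosed optDisc
    apply iInf_congr; intro ξ
    apply iInf_congr; intro _
    apply le_antisymm
    · refine iInf_le_of_le ?_ le_rfl
      intro k f hf c hc
      obtain ⟨j, hj⟩ := hproj k f hf
      have : (fun i => f (fun j => c j i)) = c j := by
        funext i; exact hj _
      rw [this]
      exact hc j
    · exact le_iInf (fun _ => le_rfl)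
  · rintro ⟨k₀, f₀, hf₀, hp₀⟩ d hd q hq m hm
    refine ⟨?_, ?_⟩
    · unfold optClosed
      apply le_iInf; intro ξ
      apply le_iInf; intro hξ
      apply le_iInf; intro hcl
      have h0 : ∀ μ j, 0 ≤ ξ μ j := fun μ j => (hξ μ).1 j
      have h1 := Pool.Agent.Helper634ord.closed_cases (hΦ k₀ f₀ hf₀) hp₀ (hcl k₀ f₀ hf₀)
      have h2 := Pool.Agent.Helper634ord.Disc.lower hd hm ξ h0 h1
      calc ENNReal.ofReal (1 / (24 * 64 ^ d) * (m : ℝ) ^ (-(1 / (d : ℝ))))
          ≤ ∫⁻ x in Set.Icc (0 : Fin d → ℝ) 1, ‖localDisc ξ x‖ₑ := h2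
        _ = eLpNorm (localDisc ξ) 1 (volume.restrict (Set.Icc (0 : Fin d → ℝ) 1)) := by
            rw [eLpNorm_one_eq_lintegral_enorm]
        _ ≤ starDisc q ξ := by
            unfold starDisc
            exact eLpNorm_le_eLpNorm_of_exponent_le hq
              (localDisc_meas ξ h0).aestronglyMeasurable
    · obtain ⟨ξ, hξ, hcl, hb⟩ := Pool.Agent.Helper634ord.Disc.upper hd hm
      have h0 : ∀ μ j, 0 ≤ ξ μ j := fun μ j => (hξ μ).1 j
      unfold optClosed
      refine iInf_le_of_le ξ (iInf_le_of_le hξ (iInf_le_of_le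
        (fun k f hf => hcl k f (hΦ k f hf)) ?_))
      calc starDisc q ξ ≤ starDisc ⊤ ξ := by
            unfold starDisc
            exact eLpNorm_le_eLpNorm_of_exponent_le le_top
              (localDisc_meas ξ h0).aestronglyMeasurable
        _ ≤ _ := by
            unfold starDisc
            rw [eLpNorm_exponent_top]
            apply eLpNormEssSup_le_of_ae_bound
            rw [ae_restrict_iff' measurableSet_Icc]
            filter_upwards with x hx
            rw [Real.norm_eq_abs]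
            exact hb x hx

end Pool.Agent.Results.MP_173de9_an.OrderClosedSets
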